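import Pool.Agent.Lib.Sm.Q.NUStep

/-!
# Near uniformity: the induction
-/

set_option autoImplicit false
open Polynomial Finset Pool.Agent.BSDP.R

namespace Pool.Agent.Sm.Q

section Ind
variable {k : Type} [Field k] [Finite k]

open Classical in
/-- the tuples with prescribed symbols -/
noncomputable def tup {F : Type} (f : F → k[X]) {m : ℕ} (d : Fin m → ℕ) (ξ : Fin m → F → ZMod 2)
    (η : Fin m → Fin m → ZMod 2) : Finset (Fin m → k[X]) :=
  (Fintype.piFinset fun j => irr k (d j)).filter fun P =>
    (∀ j x, leg (P j) (f x) = ξ j x) ∧ ∀ i j, i < j → leg (P j) (P i) = η i j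

lemma mem_tup {F : Type} (f : F → k[X]) {m : ℕ} (d : Fin m → ℕ) (ξ : Fin m → F → ZMod 2)
    (η : Fin m → Fin m → ZMod 2) (P : Fin m → k[X]) : P ∈ tup f d ξ η ↔
      (∀ j, P j ∈ irr k (d j)) ∧ (∀ j x, leg (P j) (f x) = ξ j x) ∧
        ∀ i j, i < j → leg (P j) (P i) = η i j := by
  classical
  unfold tup
  rw [mem_filter, Fintype.mem_piFinset]

lemma nu_count (h2 : (2 : k) ≠ 0) {F : Type} [Fintype F] (f : F → k[X])
    (hinj : Function.Injective f) (hmon : ∀ s, (f s).Monic) (hirr : ∀ s, Irreducible (f s))
    (n : ℕ) (δ : ℝ) (hδ0 : 0 ≤ δ) (m : ℕ) : ∀ (d : Fin m → ℕ), StrictMono d → (∀ j, 0 < d j) →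
    (∀ j x, (f x).natDegree < d j) → ∑ x, (f x).natDegree + ∑ j, d j ≤ n →
    (∀ j : Fin m, (2 : ℝ) ^ (Fintype.card F + (j : ℕ)) * (23 * n * √(Nat.card k : ℝ) ^ d j) ≤
      δ * ((irr k (d j)).card : ℝ)) →
    ∀ (ξ : Fin m → F → ZMod 2) (η : Fin m → Fin m → ZMod 2),
    ((tup f d ξ η).card : ℝ) * ∏ j : Fin m, (2 : ℝ) ^ (Fintype.card F + (j : ℕ)) ≤
      ∏ j : Fin m, ((1 + δ) * ((irr k (d j)).card : ℝ)) := by
  classical
  induction m with
  | zero =>
    intro d _ _ _ _ _ ξ η
    have : (tup f d ξ η).card ≤ 1 := by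
      rw [Finset.card_le_one]
      intro a _ b _
      funext j
      exact j.elim0
    simp only [Finset.univ_eq_empty, prod_empty, mul_one]
    exact_mod_cast this
  | succ m ih =>
    intro d hd hd0 hf hn hδ ξ η
    have hsum : ∑ x, (f x).natDegree + ∑ j : Fin m, d j.castSucc ≤ n := by
      rw [Fin.sum_univ_castSucc] at hn
      omega
    have hih := ih (fun j => d j.castSucc)
      (fun i j hij => hd (Fin.castSucc_lt_castSucc_iff.2 hij)) (fun j => hd0 _) (fun j x => hf _ x)
      hsum (fun j => by have := hδ j.castSucc; simpa using this)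
      (fun j => ξ j.castSucc) (fun i j => η i.castSucc j.castSucc)
    set I : ℝ := ((irr k (d (Fin.last m))).card : ℝ) with hI
    set w := Fintype.card F with hw
    set N : ℕ := ⌊(1 + δ) * I / 2 ^ (w + m)⌋₊ with hN
    have hI0 : 0 ≤ I := Nat.cast_nonneg _
    have hNle : (N : ℝ) * 2 ^ (w + m) ≤ (1 + δ) * I := by
      rw [← le_div_iff₀ (by positivity)]
      exact Nat.floor_le (by positivity)
    -- the restriction map
    set φ : (Fin (m + 1) → k[X]) → (Fin m → k[X]) := fun P j => P j.castSucc with hφ
    have himg : (tup f d ξ η).image φ ⊆ tup f (fun j => d j.castSucc) (fun j => ξ j.castSucc)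
        (fun i j => η i.castSucc j.castSucc) := by
      intro b hb
      obtain ⟨P, hP, rfl⟩ := mem_image.1 hb
      rw [mem_tup] at hP ⊢
      exact ⟨fun j => hP.1 _, fun j x => hP.2.1 _ x,
        fun i j hij => hP.2.2 _ _ (Fin.castSucc_lt_castSucc_iff.2 hij)⟩
    have hfib : ∀ b ∈ (tup f d ξ η).image φ, ((tup f d ξ η).filter fun P => φ P = b).card ≤ N := by
      intro b hb
      have hb2 := (mem_tup _ _ _ _ _).1 (himg hb)
      -- the family
      set g : F ⊕ Fin m → k[X] := Sum.elim f b with hg
      have hgd : ∀ s, (g s).natDegree < d (Fin.last m) := by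
        rintro (x | i)
        · exact hf _ x
        · show (b i).natDegree < _
          rw [((mem_irr _ _).1 (hb2.1 i)).2.2]
          exact hd (Fin.castSucc_lt_last i)
      have hbi : Function.Injective b := by
        intro i j hij
        have h1 := ((mem_irr _ _).1 (hb2.1 i)).2.2
        have h3 := ((mem_irr _ _).1 (hb2.1 j)).2.2
        rw [hij, h3] at h1
        exact (Fin.castSucc_injective m (hd.injective h1)).symm
      have hginj : Function.Injective g := by
        apply Function.Injective.sumElim hinj hbi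
        intro x i h
        have h1 := ((mem_irr _ _).1 (hb2.1 i)).2.2
        rw [← h] at h1
        have := hf i.castSucc x
        omega
      have hgm : ∀ s, (g s).Monic := by
        rintro (x | i)
        · exact hmon x
        · exact ((mem_irr _ _).1 (hb2.1 i)).1
      have hgi : ∀ s, Irreducible (g s) := by
        rintro (x | i)
        · exact hirr x
        · exact ((mem_irr _ _).1 (hb2.1 i)).2.1
      have hgn : ∑ s, (g s).natDegree ≤ n := by
        rw [Fintype.sum_sum_type]
        simp only [hg, Sum.elim_inl, Sum.elim_inr]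
        have e1 : ∑ i : Fin m, (b i).natDegree = ∑ i : Fin m, d i.castSucc :=
          sum_congr rfl fun i _ => ((mem_irr _ _).1 (hb2.1 i)).2.2
        rw [e1]
        exact hsum
      set ζ : F ⊕ Fin m → ZMod 2 := Sum.elim (ξ (Fin.last m)) (fun i => η i.castSucc (Fin.last m))
        with hζ
      have hstep := count_step h2 g hginj hgm hgi n hgn (d (Fin.last m)) (hd0 _) hgd ζ
      rw [Fintype.card_sum, Fintype.card_fin] at hstep
      have hle : ((tup f d ξ η).filter fun P => φ P = b).card ≤
          ((irr k (d (Fin.last m))).filter fun P => ∀ s, leg P (g s) = ζ s).card := by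
        apply Finset.card_le_card_of_injOn (fun P => P (Fin.last m))
        · intro P hP
          rw [Finset.mem_coe, mem_filter, mem_tup] at hP
          rw [Finset.mem_coe, mem_filter]
          refine ⟨hP.1.1 _, ?_⟩
          rintro (x | i)
          · exact hP.1.2.1 _ x
          · show leg (P (Fin.last m)) (b i) = η i.castSucc (Fin.last m)
            rw [← hP.2]
            exact hP.1.2.2 _ _ (Fin.castSucc_lt_last i)
        · intro P hP P' hP' h
          rw [Finset.mem_coe, mem_filter] at hP hP'
          funext j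
          refine Fin.lastCases ?_ (fun i => ?_) j
          · exact h
          · have := congrFun (hP.2.trans hP'.2.symm) i
            exact this
      refine hle.trans ?_
      rw [hN, Nat.le_floor_iff (by positivity), le_div_iff₀ (by positivity)]
      refine hstep.trans ?_
      have h3 := hδ (Fin.last m)
      rw [Fin.val_last] at h3
      linarith
    have hcard := Finset.card_le_mul_card_image (tup f d ξ η) N hfib
    have hcard2 : (tup f d ξ η).card ≤ N * (tup f (fun j => d j.castSucc)
        (fun j => ξ j.castSucc) (fun i j => η i.castSucc j.castSucc)).card :=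
      hcard.trans (Nat.mul_le_mul_left _ (card_le_card himg))
    have hcR : ((tup f d ξ η).card : ℝ) ≤ N * (tup f (fun j => d j.castSucc)
        (fun j => ξ j.castSucc) (fun i j => η i.castSucc j.castSucc)).card := by
      exact_mod_cast hcard2
    rw [Fin.prod_univ_castSucc, Fin.prod_univ_castSucc]
    simp only [Fin.val_castSucc, Fin.val_last]
    have hA0 : (0 : ℝ) ≤ ∏ j : Fin m, (2 : ℝ) ^ (w + (j : ℕ)) := by positivity
    have hB0 : (0 : ℝ) ≤ ((tup f (fun j => d j.castSucc)
        (fun j => ξ j.castSucc) (fun i j => η i.castSucc j.castSucc)).card : ℝ) *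
        ∏ j : Fin m, (2 : ℝ) ^ (w + (j : ℕ)) := by positivity
    calc ((tup f d ξ η).card : ℝ) * ((∏ j : Fin m, (2 : ℝ) ^ (w + (j : ℕ))) * 2 ^ (w + m))
        ≤ (N * (tup f (fun j => d j.castSucc)
          (fun j => ξ j.castSucc) (fun i j => η i.castSucc j.castSucc)).card) *
          ((∏ j : Fin m, (2 : ℝ) ^ (w + (j : ℕ))) * 2 ^ (w + m)) := by
          apply mul_le_mul_of_nonneg_right hcR (by positivity)
      _ = (((tup f (fun j => d j.castSucc)
          (fun j => ξ j.castSucc) (fun i j => η i.castSucc j.castSucc)).card : ℝ) *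
          ∏ j : Fin m, (2 : ℝ) ^ (w + (j : ℕ))) * (N * 2 ^ (w + m)) := by ring
      _ ≤ (∏ j : Fin m, ((1 + δ) * ((irr k (d j.castSucc)).card : ℝ))) * ((1 + δ) * I) := by
          apply mul_le_mul hih hNle (mul_nonneg (Nat.cast_nonneg N) (pow_nonneg (by norm_num) _))
          apply Finset.prod_nonneg
          intro j _
          exact mul_nonneg (by linarith) (Nat.cast_nonneg _)

end Ind

end Pool.Agent.Sm.Q
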