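import Pool.Agent.Lib.Sm.Q.Primes
import Pool.Agent.Lib.BSDP.R.Char

/-!
# Near uniformity: one step

The number of monic irreducible `P` of degree `d` with prescribed symbols with respect to a finite
family of monic irreducible polynomials of smaller degree.
-/

set_option autoImplicit false
open Polynomial Finset Pool.Agent.BSDP.R

namespace Pool.Agent.Sm.Q

section Step
variable {k : Type} [Field k] [Finite k]

/-- the sign of an element of `ZMod 2` -/
def sg (x : ZMod 2) : ℤ := if x = 0 then 1 else -1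

lemma abs_sg (x : ZMod 2) : |sg x| = 1 := by
  unfold sg; split_ifs <;> norm_num

omit [Finite k] in
lemma chiP_one (P : k[X]) (hP : Irreducible P) : chiP P 1 = 1 := by
  classical
  unfold chiP
  rw [if_neg (fun h => hP.not_isUnit (isUnit_of_dvd_one h)), map_one, if_pos IsSquare.one]

lemma chiP_prod {S : Type*} (P : k[X]) (hP : Irreducible P) (g : S → k[X]) (T : Finset S) :
    ∏ s ∈ T, chiP P (g s) = chiP P (∏ s ∈ T, g s) := by
  classical
  induction T using Finset.induction_on with
  | empty => simp [chiP_one P hP]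
  | insert a T ha ih => rw [prod_insert ha, prod_insert ha, chiP_mul hP, ih]

omit [Finite k] in
lemma ind_eq (P g : k[X]) (h : ¬ P ∣ g) (ξ : ZMod 2) :
    (if leg P g = ξ then (2 : ℤ) else 0) = 1 + sg ξ * chiP P g := by
  classical
  have h01 : ∀ x : ZMod 2, x = 0 ∨ x = 1 := by decide
  unfold leg chiP sg
  rw [if_neg h]
  by_cases hs : IsSquare (AdjoinRoot.mk P g)
  · rw [if_pos hs]
    rcases h01 ξ with rfl | rfl <;> norm_num
  · rw [if_neg hs]
    rcases h01 ξ with rfl | rfl <;> norm_num

open Classical in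
/-- the number of monic irreducible polynomials of degree `d` with prescribed symbols -/
lemma count_step (h2 : (2 : k) ≠ 0) {S : Type} [Fintype S] (g : S → k[X])
    (hinj : Function.Injective g) (hmon : ∀ s, (g s).Monic) (hirr : ∀ s, Irreducible (g s))
    (n : ℕ) (hn : ∑ s, (g s).natDegree ≤ n) (d : ℕ) (hd : 0 < d)
    (hdeg : ∀ s, (g s).natDegree < d) (ξ : S → ZMod 2) :
    (((irr k d).filter fun P => ∀ s, leg P (g s) = ξ s).card : ℝ) * 2 ^ Fintype.card S ≤
      (irr k d).card + 2 ^ Fintype.card S * (23 * n * √(Nat.card k : ℝ) ^ d) := by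
  have hpt : ∀ P ∈ irr k d, (if ∀ s, leg P (g s) = ξ s then (2 : ℤ) ^ Fintype.card S else 0) =
      ∑ T ∈ (univ : Finset S).powerset, (∏ s ∈ T, sg (ξ s)) * chiP P (∏ s ∈ T, g s) := by
    intro P hP
    have hP2 := (mem_irr d P).1 hP
    have hnd : ∀ s, ¬ P ∣ g s := by
      intro s h
      have := natDegree_le_of_dvd h (hirr s).ne_zero
      have := hdeg s
      omega
    have e1 : (if ∀ s, leg P (g s) = ξ s then (2 : ℤ) ^ Fintype.card S else 0) =
        ∏ s : S, (if leg P (g s) = ξ s then (2 : ℤ) else 0) := by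
      rw [Finset.prod_ite_zero]
      simp
    rw [e1, Finset.prod_congr rfl (fun s _ => ind_eq P (g s) (hnd s) (ξ s)), Finset.prod_one_add]
    apply sum_congr rfl
    intro T _
    rw [prod_mul_distrib, chiP_prod P hP2.2.1]
  have hcount : ((((irr k d).filter fun P => ∀ s, leg P (g s) = ξ s).card : ℤ)) *
      2 ^ Fintype.card S =
      ∑ T ∈ (univ : Finset S).powerset, (∏ s ∈ T, sg (ξ s)) *
        ∑ P ∈ irr k d, chiP P (∏ s ∈ T, g s) := by
    have e1 : ((((irr k d).filter fun P => ∀ s, leg P (g s) = ξ s).card : ℤ)) *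
        2 ^ Fintype.card S =
        ∑ P ∈ irr k d, (if ∀ s, leg P (g s) = ξ s then (2 : ℤ) ^ Fintype.card S else 0) := by
      rw [← sum_filter, sum_const, nsmul_eq_mul]
    rw [e1, sum_congr rfl hpt, sum_comm]
    apply sum_congr rfl
    intro T _
    rw [mul_sum]
  have hbound : ∀ T ∈ (univ : Finset S).powerset.erase ∅, ((∏ s ∈ T, sg (ξ s) : ℤ) : ℝ) *
      ((∑ P ∈ irr k d, chiP P (∏ s ∈ T, g s) : ℤ) : ℝ) ≤ 23 * n * √(Nat.card k : ℝ) ^ d := by
    intro T hT
    have hT0 : T ≠ ∅ := (mem_erase.1 hT).1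
    obtain ⟨s0, hs0⟩ := Finset.nonempty_iff_ne_empty.2 hT0
    have hsf : Squarefree (∏ s ∈ T, g s) := by
      apply Finset.squarefree_prod_of_pairwise_isCoprime
      · intro i _ j _ hij
        show IsRelPrime (g i) (g j)
        rcases (hirr i).dvd_or_isRelPrime (n := g j) with h | h
        swap
        · exact h
        · exfalso
          have := (Irreducible.associated_of_dvd (hirr i) (hirr j) h)
          exact hij (hinj (eq_of_monic_of_associated (hmon i) (hmon j) this))
      · intro i _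
        exact (hirr i).squarefree
    have hnd : (∏ s ∈ T, g s).natDegree = ∑ s ∈ T, (g s).natDegree :=
      natDegree_prod_of_monic _ _ (fun s _ => hmon s)
    have hle : (∏ s ∈ T, g s).natDegree ≤ n := by
      rw [hnd]
      exact (sum_le_sum_of_subset (subset_univ T)).trans hn
    have hpos : 0 < (∏ s ∈ T, g s).natDegree := by
      rw [hnd]
      exact lt_of_lt_of_le (hirr s0).natDegree_pos
        (single_le_sum (f := fun s => (g s).natDegree) (fun _ _ => Nat.zero_le _) hs0)
    have h1 := irr_sum h2 _ hsf hpos d hd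
    have hd1 : (1 : ℝ) ≤ d := by exact_mod_cast hd
    have h3 : |((∑ P ∈ irr k d, chiP P (∏ s ∈ T, g s) : ℤ) : ℝ)| ≤
        23 * n * √(Nat.card k : ℝ) ^ d := by
      have h4 : |((∑ P ∈ irr k d, chiP P (∏ s ∈ T, g s) : ℤ) : ℝ)| ≤
          d * |((∑ P ∈ irr k d, chiP P (∏ s ∈ T, g s) : ℤ) : ℝ)| := by
        nlinarith [abs_nonneg ((∑ P ∈ irr k d, chiP P (∏ s ∈ T, g s) : ℤ) : ℝ)]
      refine h4.trans (h1.trans ?_)
      have h5 : ((∏ s ∈ T, g s).natDegree : ℝ) ≤ n := by exact_mod_cast hle
      have h6 : (0 : ℝ) ≤ √(Nat.card k : ℝ) ^ d := by positivity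
      nlinarith
    have habs : |((∏ s ∈ T, sg (ξ s) : ℤ) : ℝ)| = 1 := by
      rw [← Int.cast_abs, Finset.abs_prod, Finset.prod_congr rfl (fun s _ => abs_sg (ξ s))]
      simp
    refine (le_abs_self _).trans ?_
    rw [abs_mul, habs, one_mul]
    exact h3
  have hcR : (((irr k d).filter fun P => ∀ s, leg P (g s) = ξ s).card : ℝ) * 2 ^ Fintype.card S =
      ∑ T ∈ (univ : Finset S).powerset, ((∏ s ∈ T, sg (ξ s) : ℤ) : ℝ) *
        ((∑ P ∈ irr k d, chiP P (∏ s ∈ T, g s) : ℤ) : ℝ) := by
    exact_mod_cast hcount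
  rw [hcR, ← Finset.add_sum_erase _ _ (empty_mem_powerset (univ : Finset S))]
  apply add_le_add
  · rw [prod_empty, prod_empty, Int.cast_one, one_mul]
    have e1 : ∀ P ∈ irr k d, chiP P 1 = 1 := fun P hP => chiP_one P ((mem_irr d P).1 hP).2.1
    rw [sum_congr rfl e1]
    simp
  · refine (sum_le_sum hbound).trans ?_
    rw [sum_const, nsmul_eq_mul]
    apply mul_le_mul_of_nonneg_right _ (by positivity)
    have e2 : ((univ : Finset S).powerset.erase ∅).card ≤ 2 ^ Fintype.card S := by
      refine (card_le_card (erase_subset _ _)).trans ?_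
      rw [card_powerset, card_univ]
    exact_mod_cast e2

end Step

end Pool.Agent.Sm.Q
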