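import Mathlib

/-!
# Stepanov's method over a finite field: preparations

Hasse derivatives of products with a power, uniqueness of expansions in powers of `X ^ Q`, and
the parity lemma.
-/

set_option autoImplicit false
open Polynomial Finset

namespace Pool.Agent.Sm.Q

section Hasse
variable {F : Type*} [Field F]

lemma hasse_pow (f : F[X]) (m : ℕ) (hm : f.natDegree ≤ m) (E : ℕ) : ∀ k : ℕ, ∃ w : F[X],
    f ^ k * hasseDeriv k (f ^ E) = f ^ E * w ∧ w.natDegree ≤ k * m := by
  induction E with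
  | zero =>
    intro k
    rcases Nat.eq_zero_or_pos k with rfl | hk
    · exact ⟨1, by simp, by simp⟩
    · refine ⟨0, ?_, by simp⟩
      rw [pow_zero, hasseDeriv_apply_one k hk]; simp
  | succ E ih =>
    intro k
    choose w hw hd using ih
    refine ⟨∑ ij ∈ antidiagonal k, if ij.1 = 0 then w ij.2 else
      f ^ (ij.1 - 1) * hasseDeriv ij.1 f * w ij.2, ?_, ?_⟩
    · rw [pow_succ' f E, hasseDeriv_mul, mul_sum, mul_sum]
      apply sum_congr rfl
      intro ij hij
      rw [HasAntidiagonal.mem_antidiagonal] at hij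
      split_ifs with h0
      · have h1 : ij.2 = k := by omega
        rw [h0, hasseDeriv_zero', h1]
        linear_combination f * hw k
      · have h1 : f ^ k = f ^ ij.1 * f ^ ij.2 := by rw [← pow_add, hij]
        have h2 : f ^ ij.1 = f * f ^ (ij.1 - 1) := by
          rw [← pow_succ']; congr 1; omega
        rw [h1, h2]
        linear_combination f * f ^ (ij.1 - 1) * hasseDeriv ij.1 f * hw ij.2
    · apply natDegree_sum_le_of_forall_le
      intro ij hij
      rw [HasAntidiagonal.mem_antidiagonal] at hij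
      split_ifs with h0
      · have h1 : ij.2 = k := by omega
        rw [h1]; exact hd k
      · have h1 : (f ^ (ij.1 - 1)).natDegree ≤ (ij.1 - 1) * m :=
          natDegree_pow_le.trans (Nat.mul_le_mul_left _ hm)
        have h2 : (hasseDeriv ij.1 f).natDegree ≤ m :=
          (natDegree_hasseDeriv_le f ij.1).trans (by omega)
        have h3 := hd ij.2
        have h4 : (f ^ (ij.1 - 1) * hasseDeriv ij.1 f).natDegree ≤ (ij.1 - 1) * m + m :=
          natDegree_mul_le.trans (Nat.add_le_add h1 h2)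
        refine natDegree_mul_le.trans ((Nat.add_le_add h4 h3).trans ?_)
        have h5 : (ij.1 - 1) * m + m + ij.2 * m = (ij.1 - 1 + 1 + ij.2) * m := by ring
        have h6 : ij.1 - 1 + 1 + ij.2 = k := by omega
        rw [h5, h6]

lemma hasse_pow_mul (f u : F[X]) (m : ℕ) (hm : f.natDegree ≤ m) (E k : ℕ) : ∃ w : F[X],
    f ^ k * hasseDeriv k (f ^ E * u) = f ^ E * w ∧ w.natDegree ≤ k * m + u.natDegree := by
  choose w hw hd using hasse_pow f m hm E
  refine ⟨∑ ij ∈ antidiagonal k, f ^ ij.2 * w ij.1 * hasseDeriv ij.2 u, ?_, ?_⟩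
  · rw [hasseDeriv_mul, mul_sum, mul_sum]
    apply sum_congr rfl
    intro ij hij
    rw [HasAntidiagonal.mem_antidiagonal] at hij
    have h1 : f ^ k = f ^ ij.1 * f ^ ij.2 := by rw [← pow_add, hij]
    rw [h1]
    linear_combination f ^ ij.2 * hasseDeriv ij.2 u * hw ij.1
  · apply natDegree_sum_le_of_forall_le
    intro ij hij
    rw [HasAntidiagonal.mem_antidiagonal] at hij
    have h1 : (f ^ ij.2).natDegree ≤ ij.2 * m :=
      natDegree_pow_le.trans (Nat.mul_le_mul_left _ hm)
    have h2 : (hasseDeriv ij.2 u).natDegree ≤ u.natDegree :=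
      (natDegree_hasseDeriv_le u ij.2).trans (Nat.sub_le _ _)
    have h3 := hd ij.1
    have h4 : (f ^ ij.2 * w ij.1).natDegree ≤ ij.2 * m + ij.1 * m :=
      natDegree_mul_le.trans (Nat.add_le_add h1 h3)
    refine natDegree_mul_le.trans ((Nat.add_le_add h4 h2).trans ?_)
    have h5 : ij.2 * m + ij.1 * m = (ij.1 + ij.2) * m := by ring
    rw [h5, hij]

end Hasse

section Base
variable {F : Type*} [Field F]

lemma base_unique (g : F[X][X]) (Q b : ℕ) (hb : ∀ n, (g.coeff n).natDegree ≤ b) (hbQ : b < Q)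
    (h : g.eval (X ^ Q) = 0) : g = 0 := by
  ext n r
  rw [coeff_zero, coeff_zero]
  by_cases hr : r ≤ b
  · have h1 : (g.eval (X ^ Q)).coeff (r + n * Q) = (g.coeff n).coeff r := by
      rw [eval_eq_sum_range, finsetSum_coeff, Finset.sum_eq_single n]
      · rw [← pow_mul, mul_comm Q n, coeff_mul_X_pow]
      · intro i _ hi
        rw [← pow_mul, coeff_mul_X_pow']
        split_ifs with h2
        · apply coeff_eq_zero_of_natDegree_lt
          have h3 : i < n := by
            by_contra h4
            have h5 : n + 1 ≤ i := by omega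
            have h6 : Q * (n + 1) ≤ Q * i := Nat.mul_le_mul_left _ h5
            have h7 : Q * (n + 1) = n * Q + Q := by ring
            omega
          have h4 : Q * (i + 1) ≤ Q * n := Nat.mul_le_mul_left _ h3
          have h5 : Q * (i + 1) = Q * i + Q := by ring
          have h6 : Q * n = n * Q := by ring
          have h7 := hb i
          omega
        · rfl
      · intro hn
        rw [mem_range, not_lt] at hn
        have h2 : g.coeff n = 0 := coeff_eq_zero_of_natDegree_lt (by omega)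
        rw [h2, zero_mul, coeff_zero]
    rw [← h1, h, coeff_zero]
  · exact coeff_eq_zero_of_natDegree_lt (lt_of_le_of_lt (hb n) (not_le.1 hr))

lemma degX_mul (g h : F[X][X]) (b c : ℕ) (hb : ∀ n, (g.coeff n).natDegree ≤ b)
    (hc : ∀ n, (h.coeff n).natDegree ≤ c) (n : ℕ) : ((g * h).coeff n).natDegree ≤ b + c := by
  rw [coeff_mul]
  apply natDegree_sum_le_of_forall_le
  intro ij _
  exact natDegree_mul_le.trans (Nat.add_le_add (hb _) (hc _))

lemma parity (f : F[X]) (hsf : Squarefree f) (hdeg : 0 < f.natDegree) (h0 h1 : F[X][X])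
    (h : h0 ^ 2 * C f = f.map C * h1 ^ 2) : h0 = 0 ∧ h1 = 0 := by
  have hf0 : f ≠ 0 := fun h => by rw [h, natDegree_zero] at hdeg; omega
  have hfm : f.map (C : F →+* F[X]) ≠ 0 := (Polynomial.map_ne_zero_iff C_injective).2 hf0
  have hCf : (C f : F[X][X]) ≠ 0 := C_ne_zero.2 hf0
  by_cases hz : h0 = 0
  · refine ⟨hz, ?_⟩
    rw [hz, zero_pow two_ne_zero, zero_mul] at h
    exact pow_eq_zero_iff two_ne_zero |>.1 ((mul_eq_zero.1 h.symm).resolve_left hfm)
  exfalso
  have hz1 : h1 ≠ 0 := by
    rintro rfl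
    rw [zero_pow two_ne_zero, mul_zero] at h
    exact mul_ne_zero (pow_ne_zero 2 hz) hCf h
  obtain ⟨π, hπ, hd⟩ := exists_irreducible_of_natDegree_pos hdeg
  obtain ⟨f', hf'⟩ := hd
  have hpr : Prime (C π : F[X][X]) := prime_C_iff.2 hπ.prime
  have hnd : ¬ (C π : F[X][X]) ∣ C f' := by
    rintro ⟨g, hg⟩
    have h2 : π ∣ f' := by
      refine ⟨g.coeff 0, ?_⟩
      have h3 := congrArg (fun r : F[X][X] => r.coeff 0) hg
      simpa using h3
    obtain ⟨g', hg'⟩ := h2
    exact hπ.not_isUnit (hsf π ⟨g', by rw [hf', hg']; ring⟩)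
  have hnm : ¬ (C π : F[X][X]) ∣ f.map C := by
    rintro ⟨g, hg⟩
    have h2 : π ∣ C f.leadingCoeff := by
      refine ⟨g.coeff f.natDegree, ?_⟩
      have h3 := congrArg (fun r : F[X][X] => r.coeff f.natDegree) hg
      simpa using h3
    exact hπ.not_isUnit (isUnit_of_dvd_unit h2
      (isUnit_C.2 (isUnit_iff_ne_zero.2 (leadingCoeff_ne_zero.2 hf0))))
  have hfin : ∀ b : F[X][X], b ≠ 0 → FiniteMultiplicity (C π : F[X][X]) b := fun b hb =>
    FiniteMultiplicity.of_not_isUnit hpr.not_isUnit hb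
  have e1 : multiplicity (C π : F[X][X]) (h0 ^ 2 * C f) = 2 * multiplicity (C π : F[X][X]) h0 + 1 := by
    have h2 : h0 ^ 2 * C f = h0 ^ 2 * C π * C f' := by rw [hf', C_mul]; ring
    have hCf' : (C f' : F[X][X]) ≠ 0 := by
      intro h3
      apply hf0
      rw [hf', C_eq_zero.1 h3, mul_zero]
    have hCπ : (C π : F[X][X]) ≠ 0 := hpr.ne_zero
    rw [h2, multiplicity_mul hpr (hfin _ (mul_ne_zero (mul_ne_zero (pow_ne_zero 2 hz) hCπ) hCf')),
      multiplicity_mul hpr (hfin _ (mul_ne_zero (pow_ne_zero 2 hz) hCπ)),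
      FiniteMultiplicity.multiplicity_pow hpr (hfin _ hz),
      multiplicity_eq_zero.2 hnd]
    rw [multiplicity_self]
  have e2 : multiplicity (C π : F[X][X]) (f.map C * h1 ^ 2) = 2 * multiplicity (C π : F[X][X]) h1 := by
    rw [multiplicity_mul hpr (hfin _ (mul_ne_zero hfm (pow_ne_zero 2 hz1))),
      FiniteMultiplicity.multiplicity_pow hpr (hfin _ hz1), multiplicity_eq_zero.2 hnm, zero_add]
  rw [h, e2] at e1
  omega

end Base

end Pool.Agent.Sm.Q
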