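import Pool.Agent.Lib.Sm.Q.Stepanov
import Pool.Agent.Lib.BSDP.R.Defs

/-!
# The square root bound for the quadratic character of polynomial values over a finite field
-/

set_option autoImplicit false
open Polynomial Finset Pool.Agent.BSDP.R

namespace Pool.Agent.Sm.Q

section Points
variable {F : Type} [Field F] [Fintype F]

omit [Fintype F] in
lemma ringChar_ne_two (h2 : (2 : F) ≠ 0) : ringChar F ≠ 2 := by
  intro h
  apply h2
  have := ringChar.Nat.cast_ringChar (R := F)
  rw [h] at this
  exact_mod_cast this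

lemma dim_ineq (m l a D' Q : ℕ) (h1 : l ≤ 2 * a + 1) (h2 : 2 * a ≤ l) (h3 : Q ≤ 2 * D' + m + 1)
    (h4 : m + 5 ≤ l) (h5 : l * l ≤ Q) :
    l * (D' + m * l + (a + (m + 3))) < 2 * ((a + (m + 3)) * D') := by
  have e1 : l * D' + (2 * m + 5) * D' ≤ 2 * ((a + (m + 3)) * D') := by
    have : (l + (2 * m + 5)) * D' ≤ (2 * (a + (m + 3))) * D' := Nat.mul_le_mul_right _ (by omega)
    linarith
  have e2 : m * (l * l) ≤ m * Q := Nat.mul_le_mul_left m h5
  have e3 : l * (2 * a) ≤ Q := (Nat.mul_le_mul_left l h2).trans h5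
  have e4 : (2 * m + 5) * Q ≤ (2 * m + 5) * (2 * D' + m + 1) := Nat.mul_le_mul_left _ h3
  have e5 : l * (m + 5) ≤ l * l := Nat.mul_le_mul_left _ h4
  have e6 : (m + 5) * (m + 5) ≤ l * (m + 5) := Nat.mul_le_mul_right _ h4
  nlinarith

open Classical in
/-- Stepanov's bound for the number of `x` with `f x ^ D = ω`. -/
theorem stepanov (h2 : (2 : F) ≠ 0) (f : F[X]) (hsf : Squarefree f)
    (hdeg : 0 < f.natDegree) (ω : F) :
    ((univ.filter fun x : F => f.eval x ≠ 0 ∧ f.eval x ^ (Fintype.card F / 2) = ω).card : ℝ) ≤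
      (Fintype.card F : ℝ) / 2 + (3 * f.natDegree + 7) * √(Fintype.card F : ℝ) := by
  have hodd := FiniteField.odd_card_of_char_ne_two (ringChar_ne_two h2)
  set D := Fintype.card F / 2 with hD
  have hQD : Fintype.card F = 2 * D + 1 := by omega
  set m := f.natDegree with hm
  have hQpos : 1 < Fintype.card F := Fintype.one_lt_card
  set Q := Fintype.card F with hQ
  have hQR : (1 : ℝ) < Q := by exact_mod_cast hQpos
  have hmR : (1 : ℝ) ≤ m := by exact_mod_cast hdeg
  have hsq : √(Q : ℝ) ^ 2 = Q := Real.sq_sqrt (by linarith)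
  have hs0 : 0 ≤ √(Q : ℝ) := Real.sqrt_nonneg _
  set S := univ.filter fun x : F => f.eval x ≠ 0 ∧ f.eval x ^ D = ω with hS
  rcases lt_or_ge (√(Q : ℝ)) (m + 5) with hsmall | hbig
  · have h1 : (S.card : ℝ) ≤ Q := by
      have : S.card ≤ Q := card_le_univ S
      exact_mod_cast this
    nlinarith
  · set l := Nat.sqrt Q with hl
    have hl1 : l * l ≤ Q := Nat.sqrt_le Q
    have hl2 : Q < (l + 1) * (l + 1) := Nat.lt_succ_sqrt Q
    have hlm : m + 5 ≤ l := by
      rw [hl, Nat.le_sqrt]
      have h1 : ((m : ℝ) + 5) * (m + 5) ≤ Q := by nlinarith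
      exact_mod_cast h1
    have hlp : l ≤ Q := Nat.sqrt_le_self Q
    have hmQ : m ≤ Q := by omega
    set D' := (Q - m) / 2 with hD'
    set a := l / 2 with ha
    have hdim := dim_ineq m l a D' Q (by omega) (by omega) (by omega) hlm hl1
    have hmain : l * S.card ≤ m * D + D' + (a + (m + 3)) * Q :=
      stepanov_aux D m D' l (a + (m + 3)) hQD f hsf hdeg le_rfl ω hlp (by omega) hdim
    have h3 : (l : ℝ) * S.card ≤ m * D + D' + (a + (m + 3)) * Q := by exact_mod_cast hmain
    have hDR : (D : ℝ) ≤ Q / 2 := by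
      have : 2 * D ≤ Q := by omega
      have h4 : (2 * D : ℝ) ≤ Q := by exact_mod_cast this
      linarith
    have hD'R : (D' : ℝ) ≤ Q / 2 := by
      have : 2 * D' ≤ Q := by omega
      have h4 : (2 * D' : ℝ) ≤ Q := by exact_mod_cast this
      linarith
    have haR : (a : ℝ) ≤ l / 2 := by
      have : 2 * a ≤ l := by omega
      have h4 : (2 * a : ℝ) ≤ l := by exact_mod_cast this
      linarith
    have hlR : (5 : ℝ) ≤ l := by
      have : 5 ≤ l := by omega
      exact_mod_cast this
    have hlsq : √(Q : ℝ) ≤ l + 1 := by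
      rw [Real.sqrt_le_left (by linarith)]
      have : (Q : ℝ) ≤ (l + 1) * (l + 1) := by exact_mod_cast hl2.le
      nlinarith
    have hpl : (Q : ℝ) ≤ 2 * √Q * l := by
      nlinarith
    have h7 : (l : ℝ) * S.card ≤ l * (Q / 2 + (3 * m + 7) * √Q) := by
      have e1 : (m : ℝ) * D ≤ m * (Q / 2) := mul_le_mul_of_nonneg_left hDR (by linarith)
      have e2 : ((a : ℝ) + (m + 3)) * Q ≤ (l / 2 + (m + 3)) * Q :=
        mul_le_mul_of_nonneg_right (by linarith) (by linarith)
      have e3 : ((m : ℝ) / 2 + 1 / 2 + (m + 3)) * Q ≤ (m / 2 + 1 / 2 + (m + 3)) * (2 * √Q * l) :=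
        mul_le_mul_of_nonneg_left hpl (by linarith)
      nlinarith
    exact le_of_mul_le_mul_left h7 (by linarith)

/-- The square root bound for the quadratic character of the values of a squarefree polynomial. -/
theorem sum_sgn (h2 : (2 : F) ≠ 0) (f : F[X]) (hsf : Squarefree f) (hdeg : 0 < f.natDegree) :
    |((∑ x : F, sgn (f.eval x) : ℤ) : ℝ)| ≤ 21 * f.natDegree * √(Fintype.card F : ℝ) := by
  classical
  have hF := ringChar_ne_two h2
  have hf0 : f ≠ 0 := fun h => by rw [h, natDegree_zero] at hdeg; omega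
  set D := Fintype.card F / 2 with hD
  set S1 := univ.filter fun x : F => f.eval x ≠ 0 ∧ f.eval x ^ D = 1 with hS1
  set S2 := univ.filter fun x : F => f.eval x ≠ 0 ∧ f.eval x ^ D = -1 with hS2
  set Z := univ.filter fun x : F => f.eval x = 0 with hZ
  have hb1 := stepanov h2 f hsf hdeg 1
  have hb2 := stepanov h2 f hsf hdeg (-1)
  rw [← hD] at hb1 hb2
  have h11 : (-1 : F) ≠ 1 := by
    intro h
    apply h2
    have : (1 : F) + 1 = 0 := by
      nth_rewrite 1 [← h]
      ring
    rwa [one_add_one_eq_two] at this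
  have hval : ∀ x : F, sgn (f.eval x) = (if x ∈ S1 then 1 else 0) - (if x ∈ S2 then 1 else 0) := by
    intro x
    unfold sgn
    by_cases h0 : f.eval x = 0
    · have m1 : x ∉ S1 := by rw [hS1, mem_filter]; tauto
      have m2 : x ∉ S2 := by rw [hS2, mem_filter]; tauto
      rw [if_pos h0, if_neg m1, if_neg m2]; norm_num
    · rw [if_neg h0]
      by_cases hs : IsSquare (f.eval x)
      · have h3 := (FiniteField.isSquare_iff hF h0).1 hs
        have m1 : x ∈ S1 := by rw [hS1, mem_filter]; exact ⟨mem_univ _, h0, h3⟩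
        have m2 : x ∉ S2 := by
          rw [hS2, mem_filter]
          rintro ⟨-, -, h4⟩
          rw [h3] at h4
          exact h11 h4.symm
        rw [if_pos hs, if_pos m1, if_neg m2]; norm_num
      · have h3 : f.eval x ^ D = -1 :=
          (FiniteField.pow_dichotomy hF h0).resolve_left
            (fun h => hs ((FiniteField.isSquare_iff hF h0).2 h))
        have m1 : x ∉ S1 := by
          rw [hS1, mem_filter]
          rintro ⟨-, -, h4⟩
          rw [h3] at h4
          exact h11 h4
        have m2 : x ∈ S2 := by rw [hS2, mem_filter]; exact ⟨mem_univ _, h0, h3⟩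
        rw [if_neg hs, if_neg m1, if_pos m2]; norm_num
  have hsum : (∑ x : F, sgn (f.eval x) : ℤ) = (S1.card : ℤ) - S2.card := by
    rw [sum_congr rfl fun x _ => hval x, sum_sub_distrib]
    simp
  have hcard : S1.card + S2.card + Z.card = Fintype.card F := by
    have hd1 : Disjoint S1 S2 := by
      rw [Finset.disjoint_left]
      intro x hx1 hx2
      rw [hS1, mem_filter] at hx1
      rw [hS2, mem_filter] at hx2
      have := hx1.2.2
      rw [hx2.2.2] at this
      exact h11 this
    have hd2 : Disjoint (S1 ∪ S2) Z := by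
      rw [Finset.disjoint_left]
      intro x hx1 hx2
      rw [hZ, mem_filter] at hx2
      rw [mem_union, hS1, hS2, mem_filter, mem_filter] at hx1
      tauto
    rw [← card_union_of_disjoint hd1, ← card_union_of_disjoint hd2, ← card_univ]
    congr 1
    ext x
    simp only [mem_union, hS1, hS2, hZ, mem_filter, mem_univ, true_and, iff_true]
    by_cases h0 : f.eval x = 0
    · right; exact h0
    · left
      rcases FiniteField.pow_dichotomy hF h0 with h | h
      · left; exact ⟨h0, h⟩
      · right; exact ⟨h0, h⟩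
  have hZc : Z.card ≤ f.natDegree := by
    refine le_trans (card_le_card ?_) ((Multiset.toFinset_card_le _).trans (card_roots' f))
    intro x hx
    rw [hZ, mem_filter] at hx
    rw [Multiset.mem_toFinset, mem_roots hf0]
    exact hx.2
  have hZR : (Z.card : ℝ) ≤ f.natDegree := by exact_mod_cast hZc
  have hcR : (S1.card : ℝ) + S2.card + Z.card = Fintype.card F := by exact_mod_cast hcard
  have hmR : (1 : ℝ) ≤ f.natDegree := by exact_mod_cast hdeg
  have hQ1 : (1 : ℝ) ≤ Fintype.card F := by
    have : 1 < Fintype.card F := Fintype.one_lt_card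
    exact_mod_cast this.le
  have hsQ : (1 : ℝ) ≤ √(Fintype.card F : ℝ) := Real.one_le_sqrt.2 hQ1
  rw [hsum]
  push_cast
  have hfin : (f.natDegree : ℝ) + 2 * ((3 * f.natDegree + 7) * √(Fintype.card F : ℝ)) ≤
      21 * f.natDegree * √(Fintype.card F : ℝ) := by
    nlinarith
  rw [abs_le]
  constructor <;> linarith

end Points

end Pool.Agent.Sm.Q
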