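import Pool.Agent.Lib.Sm.Q.Points
import Pool.Agent.Lib.Sm.JDefs
import Pool.Agent.Lib.MP_48b749_nt.Sieve

/-!
# From the points of the extensions of `k` to the monic irreducible polynomials

`irr_sum` : the sum of the symbols over the monic irreducible polynomials of degree `n`;
`card_irr_lower` : there are at least `q ^ n / (2 n)` monic irreducible polynomials of degree `n`.
-/

set_option autoImplicit false
open Polynomial Finset Pool.Agent.BSDP.R

namespace Pool.Agent.Sm.Q

section Primes
variable {k : Type} [Field k] [Finite k]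

lemma irr_finite (n : ℕ) : (Irr k n).Finite :=
  (Pool.Agent.BSDFF.finite_monic n).subset (fun _ h => ⟨h.1, h.2.2⟩)

/-- the monic irreducible polynomials of degree `n` -/
noncomputable def irr (k : Type) [Field k] [Finite k] (n : ℕ) : Finset k[X] :=
  (irr_finite (k := k) n).toFinset

lemma mem_irr (n : ℕ) (P : k[X]) : P ∈ irr k n ↔ P.Monic ∧ Irreducible P ∧ P.natDegree = n := by
  unfold irr
  rw [Set.Finite.mem_toFinset]
  rfl

lemma sum_pow_le3 (q : ℕ) (hq : 3 ≤ q) (m : ℕ) : 2 * ∑ d ∈ Finset.Icc 1 m, q ^ d ≤ 3 * q ^ m := by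
  induction m with
  | zero => simp
  | succ m ih =>
    rw [Finset.sum_Icc_succ_top (by omega)]
    have : 3 * q ^ m ≤ q ^ (m + 1) := by
      rw [pow_succ, mul_comm]
      exact Nat.mul_le_mul_left _ hq
    omega

lemma card_ge_three (h2 : (2 : k) ≠ 0) : 3 ≤ Nat.card k := by
  have : Fintype k := Fintype.ofFinite k
  have h1 := FiniteField.odd_card_of_char_ne_two (ringChar_ne_two h2)
  have h3 : 1 < Fintype.card k := Fintype.one_lt_card
  rw [Nat.card_eq_fintype_card]
  omega

variable {F : Type} [Field F] [Fintype F] [Algebra k F]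

/-- the elements of smaller degree -/
lemma card_small (h2 : (2 : k) ≠ 0) (n : ℕ) (hn : 0 < n) (hfr : Module.finrank k F = n) :
    2 * (univ.filter fun t : F => (minpoly k t).natDegree ≠ n).card ≤ 3 * Nat.card k ^ (n / 2) := by
  classical
  have hint : ∀ t : F, IsIntegral k t := fun t => IsIntegral.of_finite k t
  have hq3 := card_ge_three h2
  let small : Finset F := (Finset.Icc 1 (n / 2)).biUnion
    (fun d => Finset.univ.filter (fun t : F => t ^ (Nat.card k ^ d) = t))
  have hsmall : 2 * small.card ≤ 3 * Nat.card k ^ (n / 2) := by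
    refine le_trans (Nat.mul_le_mul_left 2 (Finset.card_biUnion_le.trans ?_)) (sum_pow_le3 _ hq3 _)
    apply Finset.sum_le_sum
    intro d hd
    rw [Finset.mem_Icc] at hd
    have hlt : 1 < Nat.card k ^ d := Nat.one_lt_pow (by omega) (by omega)
    have hp0 : (X ^ (Nat.card k ^ d) - X : F[X]) ≠ 0 := FiniteField.X_pow_card_sub_X_ne_zero F hlt
    have h1 : Finset.univ.filter (fun t : F => t ^ (Nat.card k ^ d) = t) ⊆
        (X ^ (Nat.card k ^ d) - X : F[X]).roots.toFinset := by
      intro x hx
      rw [Finset.mem_filter] at hx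
      rw [Multiset.mem_toFinset, mem_roots hp0, IsRoot.def]
      simp only [eval_sub, eval_pow, eval_X]
      rw [hx.2, sub_self]
    refine (Finset.card_le_card h1).trans ((Multiset.toFinset_card_le _).trans
      ((card_roots' _).trans ?_))
    rw [FiniteField.X_pow_card_sub_X_natDegree_eq F hlt]
  refine le_trans (Nat.mul_le_mul_left 2 (Finset.card_le_card ?_)) hsmall
  intro t ht
  have hd := (Finset.mem_filter.1 ht).2
  have hdvd : (minpoly k t).natDegree ∣ n :=
    (minpoly.degree_dvd (hint t)).trans (dvd_of_eq hfr)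
  have hpos := minpoly.natDegree_pos (hint t)
  obtain ⟨e, he⟩ := hdvd
  have he2 : 2 ≤ e := by
    rcases e with _ | _ | e
    · omega
    · rw [zero_add, mul_one] at he
      exact absurd he.symm hd
    · omega
  have hle : (minpoly k t).natDegree ≤ n / 2 := by
    rw [Nat.le_div_iff_mul_le (by norm_num)]
    conv_rhs => rw [he]
    exact Nat.mul_le_mul_left _ he2
  rw [Finset.mem_biUnion]
  refine ⟨(minpoly k t).natDegree, Finset.mem_Icc.mpr ⟨hpos, hle⟩, ?_⟩
  rw [Finset.mem_filter]
  refine ⟨Finset.mem_univ _, ?_⟩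
  have h5 := ((minpoly.irreducible (hint t)).natDegree_dvd_iff_dvd_X_pow_card_pow_sub_X
    (n := (minpoly k t).natDegree)).mp dvd_rfl
  obtain ⟨g, hg⟩ := h5
  have h6 := congrArg (aeval t) hg
  rw [map_mul, minpoly.aeval, zero_mul, map_sub, map_pow, aeval_X] at h6
  linear_combination h6

omit [Finite k] [Fintype F] in
/-- the symbol and the quadratic character of the extension of degree `n` -/
lemma sgn_aeval [Finite F] (π : k[X]) (t : F) (hmin : minpoly k t = π)
    (hfr : Module.finrank k F = π.natDegree) (M : k[X]) : sgn (aeval t M) = chiP π M := by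
  classical
  have hint : IsIntegral k t := IsIntegral.of_finite k t
  have hirr : Irreducible π := hmin ▸ minpoly.irreducible hint
  have : Fact (Irreducible π) := ⟨hirr⟩
  have hroot : eval₂ ((Algebra.ofId k F : k →ₐ[k] F) : k →+* F) t π = 0 := by
    have h := minpoly.aeval k t
    rw [hmin] at h
    exact h
  let φ : AdjoinRoot π →ₐ[k] F := AdjoinRoot.liftAlgHom π (Algebra.ofId k F) t hroot
  have hφ : φ (AdjoinRoot.mk π M) = aeval t M := by
    exact AdjoinRoot.liftAlgHom_mk π (Algebra.ofId k F) t hroot M
  have hinj : Function.Injective φ := φ.toRingHom.injective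
  have hfin : FiniteDimensional k F := Module.Finite.of_finite
  have hpb : Module.finrank k (AdjoinRoot π) = π.natDegree :=
    (AdjoinRoot.powerBasis hirr.ne_zero).finrank
  have hfin2 : FiniteDimensional k (AdjoinRoot π) :=
    (AdjoinRoot.powerBasis hirr.ne_zero).finite
  have hsurj : Function.Surjective φ := by
    have := (LinearMap.injective_iff_surjective_of_finrank_eq_finrank
      (f := φ.toLinearMap) (hpb.trans hfr.symm)).1 hinj
    exact this
  unfold sgn chiP
  rw [← hφ]
  have e1 : φ (AdjoinRoot.mk π M) = 0 ↔ π ∣ M := by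
    rw [map_eq_zero_iff φ hinj, AdjoinRoot.mk_eq_zero]
  have e2 : IsSquare (φ (AdjoinRoot.mk π M)) ↔ IsSquare (AdjoinRoot.mk π M) := by
    constructor
    · rintro ⟨y, hy⟩
      obtain ⟨x, rfl⟩ := hsurj y
      exact ⟨x, hinj (by rw [hy, map_mul])⟩
    · rintro ⟨y, hy⟩
      exact ⟨φ y, by rw [hy, map_mul]⟩
  simp only [e1, e2]

/-- each monic irreducible polynomial of degree `n` has `n` roots in the extension of degree `n` -/
lemma card_fibre (n : ℕ) (hfr : Module.finrank k F = n) (π : k[X])
    (hm : π.Monic) (hi : Irreducible π) (hd : π.natDegree = n) :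
    Nat.card {t : F // minpoly k t = π} = n := by
  classical
  have hint : ∀ t : F, IsIntegral k t := fun t => IsIntegral.of_finite k t
  have hsep : π.Separable := PerfectField.separable_of_irreducible hi
  have hfin : FiniteDimensional k F := Module.Finite.of_finite
  have : Fintype k := Fintype.ofFinite k
  have hsplit : (π.map (algebraMap k F)).Splits := by
    have h1 : π ∣ X ^ (Nat.card k ^ n) - X :=
      (hi.natDegree_dvd_iff_dvd_X_pow_card_pow_sub_X (n := n)).mp (hd ▸ dvd_rfl)
    have h2 : Fintype.card F = Nat.card k ^ n := by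
      rw [Nat.card_eq_fintype_card, ← hfr, Module.card_eq_pow_finrank (K := k)]
    rw [← h2] at h1
    exact (FiniteField.isSplittingField_sub F k).splits.of_dvd
      (Polynomial.map_ne_zero (FiniteField.X_pow_card_sub_X_ne_zero k Fintype.one_lt_card))
      (Polynomial.map_dvd _ h1)
  have hcard := card_rootSet_eq_natDegree hsep hsplit
  rw [← Nat.card_eq_fintype_card] at hcard
  rw [← hd, ← hcard]
  apply Nat.card_congr
  apply Equiv.subtypeEquivRight
  intro t
  rw [mem_rootSet_of_ne hi.ne_zero]
  constructor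
  · intro h
    rw [← h]; exact minpoly.aeval k t
  · intro h
    exact (minpoly.eq_of_irreducible_of_monic hi h hm).symm

/-- a sum over the elements of degree `n` of a function of the minimal polynomial -/
lemma sum_fibre (n : ℕ) (hfr : Module.finrank k F = n) (g : k[X] → ℤ) :
    ∑ t ∈ univ.filter (fun t : F => (minpoly k t).natDegree = n), g (minpoly k t) =
      n * ∑ P ∈ irr k n, g P := by
  classical
  have hint : ∀ t : F, IsIntegral k t := fun t => IsIntegral.of_finite k t
  have hmaps : ∀ t ∈ univ.filter (fun t : F => (minpoly k t).natDegree = n),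
      minpoly k t ∈ irr k n := by
    intro t ht
    rw [mem_irr]
    exact ⟨minpoly.monic (hint t), minpoly.irreducible (hint t), (mem_filter.1 ht).2⟩
  rw [← Finset.sum_fiberwise_of_maps_to hmaps, mul_sum]
  apply sum_congr rfl
  intro P hP
  have hP2 := (mem_irr n P).1 hP
  rw [sum_congr rfl (g := fun _ => g P)]
  · rw [sum_const, nsmul_eq_mul]
    congr 1
    have h1 : ((univ.filter (fun t : F => (minpoly k t).natDegree = n)).filter
        (fun t => minpoly k t = P)) = univ.filter (fun t : F => minpoly k t = P) := by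
      ext t
      simp only [mem_filter, mem_univ, true_and]
      constructor
      · rintro ⟨-, h⟩
        exact h
      · intro h
        exact ⟨by rw [h]; exact hP2.2.2, h⟩
    rw [h1, ← Fintype.card_subtype, ← Nat.card_eq_fintype_card,
      card_fibre n hfr P hP2.1 hP2.2.1 hP2.2.2]
  · intro t ht
    rw [(mem_filter.1 ht).2]

end Primes

section Main
variable {k : Type} [Field k] [Finite k]

/-- there are many monic irreducible polynomials -/
theorem card_irr_lower (h2 : (2 : k) ≠ 0) (n : ℕ) (hn : 0 < n) :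
    Nat.card k ^ n ≤ 2 * n * (irr k n).card := by
  classical
  have : NeZero n := ⟨hn.ne'⟩
  obtain ⟨p, hp⟩ := CharP.exists k
  have : Fact p.Prime := ⟨CharP.char_is_prime k p⟩
  have : Fintype (FiniteField.Extension k p n) := Fintype.ofFinite _
  have hfr : Module.finrank k (FiniteField.Extension k p n) = n :=
    FiniteField.finrank_extension k p n
  have hc : Fintype.card (FiniteField.Extension k p n) = Nat.card k ^ n := by
    rw [← Nat.card_eq_fintype_card]
    exact FiniteField.natCard_extension k p n
  have h1 := card_small (F := FiniteField.Extension k p n) h2 n hn hfr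
  simp only [ne_eq] at h1
  have h3 := sum_fibre (F := FiniteField.Extension k p n) n hfr (fun _ => 1)
  simp only [sum_const, nsmul_eq_mul, mul_one] at h3
  have h4 := Finset.card_filter_add_card_filter_not (s := (univ : Finset (FiniteField.Extension k p n)))
    (fun t => (minpoly k t).natDegree = n)
  rw [card_univ, hc] at h4
  have h5 : (univ.filter (fun t : FiniteField.Extension k p n =>
      (minpoly k t).natDegree = n)).card = n * (irr k n).card := by
    exact_mod_cast h3
  rw [h5] at h4
  have hq := card_ge_three h2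
  have h6 : 3 * Nat.card k ^ (n / 2) ≤ Nat.card k ^ n := by
    calc 3 * Nat.card k ^ (n / 2) ≤ Nat.card k * Nat.card k ^ (n / 2) := Nat.mul_le_mul_right _ hq
      _ = Nat.card k ^ (n / 2 + 1) := by rw [pow_succ, mul_comm]
      _ ≤ Nat.card k ^ n := Nat.pow_le_pow_right (by omega) (by omega)
  have h7 : 2 * n * (irr k n).card = 2 * (n * (irr k n).card) := by ring
  rw [h7]
  omega

/-- The sum of the symbols over the monic irreducible polynomials of degree `n`. -/
theorem irr_sum (h2 : (2 : k) ≠ 0) (M : k[X]) (hM : Squarefree M) (hd : 0 < M.natDegree) (n : ℕ)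
    (hn : 0 < n) :
    n * |((∑ P ∈ irr k n, chiP P M : ℤ) : ℝ)| ≤ 23 * M.natDegree * √(Nat.card k : ℝ) ^ n := by
  classical
  have : NeZero n := ⟨hn.ne'⟩
  obtain ⟨p, hp⟩ := CharP.exists k
  have : Fact p.Prime := ⟨CharP.char_is_prime k p⟩
  set F := FiniteField.Extension k p n with hF
  have : Fintype F := Fintype.ofFinite _
  have hfr : Module.finrank k F = n := FiniteField.finrank_extension k p n
  have hc : Fintype.card F = Nat.card k ^ n := by
    rw [← Nat.card_eq_fintype_card]
    exact FiniteField.natCard_extension k p n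
  have hinj := (algebraMap k F).injective
  have h2F : (2 : F) ≠ 0 := by
    rw [← map_ofNat (algebraMap k F) 2]
    exact (map_ne_zero_iff _ hinj).mpr h2
  have hsf : Squarefree (M.map (algebraMap k F)) :=
    ((PerfectField.separable_iff_squarefree.2 hM).map).squarefree
  have hdeg : 0 < (M.map (algebraMap k F)).natDegree := by rwa [natDegree_map]
  have hmain := sum_sgn h2F _ hsf hdeg
  rw [natDegree_map, hc] at hmain
  have hsmall := card_small (F := F) h2 n hn hfr
  have hfib := sum_fibre (F := F) n hfr (fun P => chiP P M)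
  have hsplit : (∑ x : F, sgn ((M.map (algebraMap k F)).eval x) : ℤ) =
      n * ∑ P ∈ irr k n, chiP P M +
      ∑ x ∈ univ.filter (fun t : F => ¬ (minpoly k t).natDegree = n),
        sgn ((M.map (algebraMap k F)).eval x) := by
    rw [← Finset.sum_filter_add_sum_filter_not univ (fun t : F => (minpoly k t).natDegree = n),
      ← hfib]
    congr 1
    apply sum_congr rfl
    intro t ht
    rw [eval_map, ← aeval_def]
    apply sgn_aeval _ _ rfl
    rw [hfr, (mem_filter.1 ht).2]
  have hone : ∀ x : F, |sgn ((M.map (algebraMap k F)).eval x)| ≤ 1 := by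
    intro x
    unfold sgn
    split_ifs <;> norm_num
  have herr : |∑ x ∈ univ.filter (fun t : F => ¬ (minpoly k t).natDegree = n),
      sgn ((M.map (algebraMap k F)).eval x)| ≤
      ((univ.filter (fun t : F => ¬ (minpoly k t).natDegree = n)).card : ℤ) := by
    refine (Finset.abs_sum_le_sum_abs _ _).trans ((sum_le_sum fun x _ => hone x).trans ?_)
    simp
  have hq1 : (1 : ℝ) ≤ √(Nat.card k : ℝ) := by
    rw [Real.one_le_sqrt]
    have := card_ge_three h2
    exact_mod_cast (by omega : 1 ≤ Nat.card k)
  have hq0 : (0 : ℝ) ≤ (Nat.card k : ℝ) := Nat.cast_nonneg _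
  have hsm : ((univ.filter (fun t : F => ¬ (minpoly k t).natDegree = n)).card : ℝ) ≤
      2 * √(Nat.card k : ℝ) ^ n := by
    have e1 : (2 * (univ.filter (fun t : F => ¬ (minpoly k t).natDegree = n)).card : ℝ) ≤
        3 * (Nat.card k : ℝ) ^ (n / 2) := by exact_mod_cast hsmall
    have e2 : (Nat.card k : ℝ) ^ (n / 2) ≤ √(Nat.card k : ℝ) ^ n := by
      calc (Nat.card k : ℝ) ^ (n / 2) = (√(Nat.card k : ℝ) ^ 2) ^ (n / 2) := by
            rw [Real.sq_sqrt hq0]
        _ = √(Nat.card k : ℝ) ^ (2 * (n / 2)) := by rw [pow_mul]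
        _ ≤ √(Nat.card k : ℝ) ^ n := pow_le_pow_right₀ hq1 (by omega)
    have e3 : (0 : ℝ) ≤ √(Nat.card k : ℝ) ^ n := by positivity
    linarith
  have hpow : √((Nat.card k ^ n : ℕ) : ℝ) = √(Nat.card k : ℝ) ^ n := by
    rw [Nat.cast_pow, Real.sqrt_eq_iff_mul_self_eq (by positivity) (by positivity), ← mul_pow,
      Real.mul_self_sqrt hq0]
  rw [hpow, hsplit] at hmain
  push_cast at hmain herr ⊢
  have herr2 : |((∑ x ∈ univ.filter (fun t : F => ¬ (minpoly k t).natDegree = n),
      sgn ((M.map (algebraMap k F)).eval x) : ℤ) : ℝ)| ≤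
      ((univ.filter (fun t : F => ¬ (minpoly k t).natDegree = n)).card : ℝ) := by
    exact_mod_cast herr
  push_cast at herr2
  have hmR : (1 : ℝ) ≤ M.natDegree := by exact_mod_cast hd
  have e4 : (0 : ℝ) ≤ √(Nat.card k : ℝ) ^ n := by positivity
  have e5 : (n : ℝ) * |∑ P ∈ irr k n, (chiP P M : ℝ)| = |(n : ℝ) * ∑ P ∈ irr k n, (chiP P M : ℝ)| := by
    rw [abs_mul, abs_of_nonneg (Nat.cast_nonneg n : (0 : ℝ) ≤ n)]
  rw [e5]
  have e6 : 2 * √(Nat.card k : ℝ) ^ n ≤ 2 * M.natDegree * √(Nat.card k : ℝ) ^ n := by nlinarith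
  rw [abs_le] at hmain herr2 ⊢
  constructor <;> linarith [hmain.1, hmain.2, herr2.1, herr2.2]

end Main

end Pool.Agent.Sm.Q
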