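import Pool.Agent.Lib.Sm.Q.Hasse

/-!
# Stepanov's method for the quadratic character over a finite field

For a finite field `F` of odd order `Q = 2 D + 1` and a squarefree nonconstant `f : F[X]`, the
number of `x` with `f x ^ D = ω` is at most `Q / 2 + O(deg f √Q)`.
-/

set_option autoImplicit false
open Polynomial Finset

namespace Pool.Agent.Sm.Q

section Step
variable {F : Type*} [Field F] [Fintype F]

/-- the Hasse derivatives at a point of `X ^ (j Q) W` -/
lemma taylor_term (a : F) (j k : ℕ) (hk : k < Fintype.card F) (W : F[X]) :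
    (taylor a (X ^ (j * Fintype.card F) * W)).coeff k = a ^ j * (hasseDeriv k W).eval a := by
  have h1 : taylor a (X ^ (j * Fintype.card F) * W) =
      (X ^ Fintype.card F + C a) ^ j * taylor a W := by
    rw [taylor_mul, taylor_pow, taylor_X, mul_comm j, pow_mul]
    congr 2
    rw [← FiniteField.expand_card, map_add, expand_X, expand_C]
  obtain ⟨G, hG⟩ : (X ^ Fintype.card F : F[X]) ∣ (X ^ Fintype.card F + C a) ^ j - C a ^ j := by
    have := sub_dvd_pow_sub_pow (X ^ Fintype.card F + C a : F[X]) (C a) j
    rwa [add_sub_cancel_right] at this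
  have h2 : (X ^ Fintype.card F + C a : F[X]) ^ j * taylor a W =
      C (a ^ j) * taylor a W + X ^ Fintype.card F * (G * taylor a W) := by
    rw [C_pow]
    linear_combination taylor a W * hG
  rw [h1, h2, coeff_add, coeff_C_mul, taylor_coeff, coeff_X_pow_mul', if_neg (by omega), add_zero]

open Classical in
/-- Stepanov's bound in parametric form. -/
theorem stepanov_aux (D m D' l J : ℕ) (hQD : Fintype.card F = 2 * D + 1) (f : F[X])
    (hsf : Squarefree f) (hdeg : 0 < f.natDegree) (hm : f.natDegree ≤ m) (ω : F)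
    (hl : l ≤ Fintype.card F) (hD' : 2 * D' + m ≤ Fintype.card F)
    (hdim : l * (D' + m * l + J) < 2 * (J * D')) :
    l * (univ.filter fun x : F => f.eval x ≠ 0 ∧ f.eval x ^ D = ω).card ≤
      m * D + D' + J * Fintype.card F := by
  classical
  set Q := Fintype.card F with hQ
  set M := D' + m * l + J with hM
  set T := Fin 2 × Fin J × Fin D' with hT
  have hD'pos : 0 < D' := by
    rcases Nat.eq_zero_or_pos D' with h | h
    · rw [h, mul_zero, mul_zero] at hdim; omega
    · exact h
  have hex : ∀ (t : T) (k : ℕ), ∃ w : F[X],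
      f ^ k * hasseDeriv k (f ^ ((t.1 : ℕ) * D) * X ^ (t.2.2 : ℕ)) = f ^ ((t.1 : ℕ) * D) * w ∧
        w.natDegree ≤ k * m + t.2.2 := by
    intro t k
    obtain ⟨w, hw, hd⟩ := hasse_pow_mul f (X ^ (t.2.2 : ℕ)) m hm ((t.1 : ℕ) * D) k
    exact ⟨w, hw, hd.trans (Nat.add_le_add_left (natDegree_X_pow_le _) _)⟩
  choose v hv hvd using hex
  -- the polynomials `P_k`
  set P : (T → F) → ℕ → F[X] := fun c k =>
    ∑ t : T, C (c t) * (C (ω ^ (t.1 : ℕ)) * X ^ (t.2.1 : ℕ) * v t k) with hP
  set L : (T → F) →ₗ[F] (Fin l × Fin M → F) :=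
    { toFun := fun c kt => (P c kt.1).coeff kt.2
      map_add' := by
        intro c c'
        funext kt
        simp only [hP, Pi.add_apply, map_add, add_mul, sum_add_distrib, coeff_add]
      map_smul' := by
        intro a c
        funext kt
        simp only [hP, Pi.smul_apply, smul_eq_mul, map_mul, RingHom.id_apply, mul_assoc,
          ← mul_sum, coeff_C_mul] } with hL
  have hker : LinearMap.ker L ≠ ⊥ := by
    apply LinearMap.ker_ne_bot_of_finrank_lt
    rw [Module.finrank_fintype_fun_eq_card, Module.finrank_fintype_fun_eq_card]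
    simp only [hT, Fintype.card_prod, Fintype.card_fin]
    exact hdim
  obtain ⟨c, hcL, hc0⟩ := (Submodule.ne_bot_iff _).1 hker
  have hcoef : ∀ (k : Fin l) (t : Fin M), (P c k).coeff t = 0 := by
    intro k t
    have := congrFun (LinearMap.mem_ker.1 hcL) (k, t)
    simpa [hL] using this
  have hPzero : ∀ k : ℕ, k < l → P c k = 0 := by
    intro k hk
    ext s
    rw [coeff_zero]
    by_cases hs : s < M
    · exact hcoef ⟨k, hk⟩ ⟨s, hs⟩
    · apply coeff_eq_zero_of_natDegree_lt
      have hs' : M ≤ s := not_lt.1 hs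
      have : (P c k).natDegree ≤ M - 1 := by
        apply natDegree_sum_le_of_forall_le
        intro t _
        have hD : (t.2.2 : ℕ) < D' := t.2.2.2
        have hJ : (t.2.1 : ℕ) < J := t.2.1.2
        refine (natDegree_C_mul_le _ _).trans ?_
        refine natDegree_mul_le.trans ?_
        have h1 : (C (ω ^ (t.1 : ℕ)) * X ^ (t.2.1 : ℕ) : F[X]).natDegree ≤ t.2.1 :=
          natDegree_C_mul_X_pow_le _ _
        have h2 := hvd t k
        have h4 : k * m ≤ m * l := by
          rw [mul_comm]; exact Nat.mul_le_mul_left m hk.le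
        omega
      omega
  -- the auxiliary polynomial
  set R : F[X] := ∑ t : T, C (c t) *
    (X ^ ((t.2.1 : ℕ) * Q) * (f ^ ((t.1 : ℕ) * D) * X ^ (t.2.2 : ℕ))) with hR
  have hRne : R ≠ 0 := by
    intro hR0
    set H : Fin 2 → F[X][X] := fun i => ∑ j : Fin J, ∑ r : Fin D',
      C (C (c (i, j, r)) * X ^ (r : ℕ)) * X ^ (j : ℕ) with hH
    have hHd : ∀ i n, ((H i).coeff n).natDegree ≤ D' - 1 := by
      intro i n
      rw [hH]
      simp only [finsetSum_coeff]
      apply natDegree_sum_le_of_forall_le
      intro j _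
      apply natDegree_sum_le_of_forall_le
      intro r _
      rw [coeff_C_mul_X_pow]
      split_ifs
      · refine (natDegree_C_mul_X_pow_le _ _).trans ?_
        have := r.2
        omega
      · simp
    have hHc : ∀ (i : Fin 2) (j : Fin J) (r : Fin D'),
        ((H i).coeff j).coeff r = c (i, j, r) := by
      intro i j r
      rw [hH]
      simp only [finsetSum_coeff]
      rw [Finset.sum_eq_single j, Finset.sum_eq_single r]
      · rw [coeff_C_mul_X_pow, if_pos rfl, coeff_C_mul_X_pow, if_pos rfl]
      · intro r' _ hr'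
        rw [coeff_C_mul_X_pow, if_pos rfl, coeff_C_mul_X_pow, if_neg]
        intro h
        exact hr' (Fin.ext h.symm)
      · intro h; exact absurd (mem_univ _) h
      · intro j' _ hj'
        apply Finset.sum_eq_zero
        intro r' _
        rw [coeff_C_mul_X_pow, if_neg, coeff_zero]
        intro h
        exact hj' (Fin.ext h.symm)
      · intro h; exact absurd (mem_univ _) h
    have hHe : ∀ i, (H i).eval (X ^ Q) = ∑ j : Fin J, ∑ r : Fin D',
        C (c (i, j, r)) * X ^ (r : ℕ) * X ^ ((j : ℕ) * Q) := by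
      intro i
      rw [hH]
      simp only [eval_finsetSum, eval_mul, eval_C, eval_pow, eval_X]
      apply Finset.sum_congr rfl
      intro j _
      apply Finset.sum_congr rfl
      intro r _
      rw [← pow_mul, mul_comm Q]
    have hRe : R = (H 0).eval (X ^ Q) + f ^ D * (H 1).eval (X ^ Q) := by
      rw [hR, hHe, hHe, Fintype.sum_prod_type, Fin.sum_univ_two]
      congr 1
      · rw [Fintype.sum_prod_type]
        apply Finset.sum_congr rfl
        intro j _
        apply Finset.sum_congr rfl
        intro r _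
        simp only [Fin.val_zero, zero_mul, pow_zero, one_mul]
        ring
      · rw [Fintype.sum_prod_type, mul_sum]
        apply Finset.sum_congr rfl
        intro j _
        rw [mul_sum]
        apply Finset.sum_congr rfl
        intro r _
        simp only [Fin.val_one, one_mul]
        ring
    have hfd : ∀ n, ((C f : F[X][X]).coeff n).natDegree ≤ m := by
      intro n
      rw [coeff_C]
      split_ifs
      · exact hm
      · simp
    have hfd2 : ∀ n, ((f.map (C : F →+* F[X])).coeff n).natDegree ≤ 0 := by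
      intro n
      rw [coeff_map, natDegree_C]
    have hA : H 0 ^ 2 * C f - f.map C * H 1 ^ 2 = 0 := by
      apply base_unique _ Q (D' - 1 + (D' - 1) + m)
      · intro n
        rw [coeff_sub]
        apply (natDegree_sub_le _ _).trans
        apply max_le
        · rw [sq]
          exact degX_mul _ _ _ _ (degX_mul _ _ _ _ (hHd 0) (hHd 0)) hfd n
        · rw [sq]
          refine (degX_mul _ _ _ _ hfd2 (degX_mul _ _ _ _ (hHd 1) (hHd 1)) n).trans ?_
          omega
      · omega
      · have h1 : (H 0).eval (X ^ Q) = - (f ^ D * (H 1).eval (X ^ Q)) := by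
          rw [hR0] at hRe
          linear_combination - hRe
        have h2 : (f.map (C : F →+* F[X])).eval (X ^ Q) = f ^ Q := by
          have h3 : f.comp (X ^ Q) = f ^ Q := by
            rw [← expand_eq_comp_X_pow, hQ, FiniteField.expand_card]
          rw [eval_map, ← h3]
          rfl
        rw [eval_sub, eval_mul, eval_mul, eval_pow, eval_pow, eval_C, h1, h2, hQD]
        ring
    have hpar := parity f hsf hdeg (H 0) (H 1) (sub_eq_zero.1 hA)
    apply hc0
    funext t
    obtain ⟨i, j, r⟩ := t
    rw [← hHc i j r]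
    fin_cases i
    · show ((H 0).coeff j).coeff r = 0
      rw [hpar.1]; simp
    · show ((H 1).coeff j).coeff r = 0
      rw [hpar.2]; simp
  set S := univ.filter fun x : F => f.eval x ≠ 0 ∧ f.eval x ^ D = ω with hS
  have hroot : ∀ x ∈ S, ∀ k < l, (taylor x R).coeff k = 0 := by
    intro x hx k hk
    rw [hS, mem_filter] at hx
    obtain ⟨_, hx0, hxω⟩ := hx
    have h1 : f.eval x ^ k * (taylor x R).coeff k = (P c k).eval x := by
      rw [hR, map_sum, finsetSum_coeff, mul_sum, hP]
      simp only
      rw [eval_finsetSum]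
      apply sum_congr rfl
      intro t _
      rw [taylor_mul, taylor_C, coeff_C_mul, taylor_term _ _ _ (by omega)]
      have h2 := congrArg (eval x) (hv t k)
      rw [eval_mul, eval_mul, eval_pow, eval_pow] at h2
      simp only [eval_mul, eval_C, eval_pow, eval_X]
      have h3 : f.eval x ^ ((t.1 : ℕ) * D) = ω ^ (t.1 : ℕ) := by
        rw [mul_comm (t.1 : ℕ) D, pow_mul, hxω]
      rw [h3] at h2
      linear_combination c t * x ^ (t.2.1 : ℕ) * h2
    rw [hPzero k hk, eval_zero] at h1
    exact (mul_eq_zero.1 h1).resolve_left (pow_ne_zero k hx0)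
  have hmult : ∀ x ∈ S, l ≤ R.rootMultiplicity x := by
    intro x hx
    rw [le_rootMultiplicity_iff hRne, X_sub_C_pow_dvd_iff, X_pow_dvd_iff]
    intro k hk
    exact hroot x hx k hk
  have hcount : l * S.card ≤ R.natDegree := by
    calc l * S.card = ∑ x ∈ S, l := by rw [sum_const, smul_eq_mul, mul_comm]
      _ ≤ ∑ x ∈ S, R.rootMultiplicity x := sum_le_sum hmult
      _ = ∑ x ∈ S, R.roots.count x := by simp only [count_roots]
      _ ≤ Multiset.card R.roots := by
          rw [← Multiset.toFinset_sum_count_eq]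
          apply sum_le_sum_of_ne_zero
          intro x _ hx
          rw [Multiset.mem_toFinset]
          exact Multiset.count_ne_zero.1 hx
      _ ≤ R.natDegree := card_roots' R
  refine hcount.trans ?_
  rw [hR]
  apply natDegree_sum_le_of_forall_le
  intro t _
  have hD : (t.2.2 : ℕ) < D' := t.2.2.2
  have hJ : (t.2.1 : ℕ) < J := t.2.1.2
  have hi : (t.1 : ℕ) < 2 := t.1.2
  refine (natDegree_C_mul_le _ _).trans ?_
  refine natDegree_mul_le.trans ?_
  have h1 : (X ^ ((t.2.1 : ℕ) * Q) : F[X]).natDegree ≤ t.2.1 * Q := natDegree_X_pow_le _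
  have h2 : (f ^ ((t.1 : ℕ) * D) * X ^ (t.2.2 : ℕ) : F[X]).natDegree ≤
      ((t.1 : ℕ) * D) * m + t.2.2 := by
    refine natDegree_mul_le.trans ?_
    apply Nat.add_le_add _ (natDegree_X_pow_le _)
    refine natDegree_pow_le.trans ?_
    exact Nat.mul_le_mul_left _ hm
  have h3 : (t.1 : ℕ) * D ≤ 1 * D := Nat.mul_le_mul_right D (by omega)
  have h4 : ((t.1 : ℕ) * D) * m ≤ m * D := by
    rw [mul_comm m D]
    exact Nat.mul_le_mul_right m (by omega)
  have h5 : (t.2.1 : ℕ) * Q ≤ J * Q := Nat.mul_le_mul_right Q hJ.le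
  omega

end Step

end Pool.Agent.Sm.Q
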